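import Mathlib

/-!
# An optimal burning sequence containing no minimum lazy burning set (MP_50e72c)

The hypergraph on `{0,1,2,3,4}` with the edges `{1,3,4}, {1,2,3}, {2,3,4}, {0,2}, {1,4}` has
burning number `3` with the optimal burning sequence `(3,2,0)`, its lazy burning number is `1`
(burn the vertex `1`), but none of `{3}, {2}, {0}` is a lazy burning set.
-/

namespace Pool.Agent.Results.MP_50e72c_co.LazyNotInside

/-- The propagation rule: the unburned vertex `v` catches fire from the set `B` of burned
vertices if some edge `e` with at least two elements and `v ∈ e` satisfies `e \ {v} ⊆ B`.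
(`E` is the collection of edges, given as a list, repetitions allowed.) -/
def Catches {V : Type} [DecidableEq V] (E : List (Finset V)) (B : Finset V) (v : V) : Prop :=
  v ∉ B ∧ ∃ e ∈ E, 2 ≤ e.card ∧ v ∈ e ∧ e.erase v ⊆ B

instance {V : Type} [DecidableEq V] (E : List (Finset V)) (B : Finset V) (v : V) :
    Decidable (Catches E B v) := by
  unfold Catches; infer_instance

/-- The burned set after one propagation from `B`. -/
def spread {V : Type} [DecidableEq V] [Fintype V] (E : List (Finset V)) (B : Finset V) :
    Finset V :=
  B ∪ Finset.univ.filter fun v => Catches E B v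

/-- Starting from the burned set `B`, the sources `u_1, u_2, …` of the list can be lit in
successive rounds (each source being unburned at the end of the previous round), and at the end
of the last round every vertex is burned. -/
def Burns {V : Type} [DecidableEq V] [Fintype V] (E : List (Finset V)) :
    Finset V → List V → Prop
  | B, [] => B = Finset.univ
  | B, u :: l => u ∉ B ∧ Burns E (insert u (spread E B)) l

instance decBurns {V : Type} [DecidableEq V] [Fintype V] (E : List (Finset V)) :
    ∀ (B : Finset V) (l : List V), Decidable (Burns E B l)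
  | B, [] => by unfold Burns; infer_instance
  | B, u :: l => by
      unfold Burns
      have := decBurns E (insert u (spread E B)) l
      infer_instance

/-- A burning sequence. -/
def IsBurningSeq {V : Type} [DecidableEq V] [Fintype V] (E : List (Finset V))
    (l : List V) : Prop := Burns E ∅ l

/-- An optimal burning sequence: one of smallest length. -/
def IsOptimal {V : Type} [DecidableEq V] [Fintype V] (E : List (Finset V))
    (l : List V) : Prop :=
  IsBurningSeq E l ∧ ∀ l' : List V, IsBurningSeq E l' → l.length ≤ l'.length

/-- A lazy burning set: repeated propagation from it burns every vertex. -/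
def IsLazy {V : Type} [DecidableEq V] [Fintype V] (E : List (Finset V))
    (S : Finset V) : Prop := ∃ t : ℕ, (spread E)^[t] S = Finset.univ

/-- A minimum lazy burning set. -/
def IsMinLazy {V : Type} [DecidableEq V] [Fintype V] (E : List (Finset V))
    (S : Finset V) : Prop :=
  IsLazy E S ∧ ∀ S' : Finset V, IsLazy E S' → S.card ≤ S'.card

/-- The five edges of the counterexample. -/
def E0 : List (Finset (Fin 5)) := [{1, 3, 4}, {1, 2, 3}, {2, 3, 4}, {0, 2}, {1, 4}]

theorem opt : IsOptimal E0 [3, 2, 0] := by
  refine ⟨by unfold IsBurningSeq; decide +kernel, ?_⟩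
  intro l hl
  match l, hl with
  | [], hl => exact absurd hl (by unfold IsBurningSeq; decide +kernel)
  | [x], hl =>
    have h : ∀ x : Fin 5, ¬ Burns E0 ∅ [x] := by decide +kernel
    exact absurd hl (h x)
  | [x, y], hl =>
    have h : ∀ x y : Fin 5, ¬ Burns E0 ∅ [x, y] := by decide +kernel
    exact absurd hl (h x y)
  | x :: y :: z :: l, _ => simp

theorem lazy_one : IsLazy E0 {1} := ⟨4, by decide +kernel⟩

/-- The sets `∅`, `{0,2}`, `{3}` are closed under propagation. -/
theorem not_lazy {S C : Finset (Fin 5)} (h1 : S ⊆ C) (h2 : ∀ B ⊆ C, spread E0 B ⊆ C)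
    (h3 : C ≠ Finset.univ) : ¬ IsLazy E0 S := by
  rintro ⟨t, ht⟩
  have : ∀ t, (spread E0)^[t] S ⊆ C := by
    intro t
    induction t with
    | zero => exact h1
    | succ t ih => rw [Function.iterate_succ_apply']; exact h2 _ ih
  apply h3
  apply Finset.eq_univ_of_forall
  intro x
  apply this t
  rw [ht]
  exact Finset.mem_univ x

theorem closed_02 : ∀ B ⊆ ({0, 2} : Finset (Fin 5)), spread E0 B ⊆ {0, 2} := by
  intro B
  revert B
  decide +kernel

theorem closed_3 : ∀ B ⊆ ({3} : Finset (Fin 5)), spread E0 B ⊆ {3} := by
  intro B
  revert B
  decide +kernel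

/-- **Negative answer to Q1 of MP_50e72c**: there are a hypergraph and an optimal burning
sequence of it such that no subset of the set of its sources is a minimum lazy burning set.
The hypergraph can be chosen on five vertices, with every vertex in some edge. -/
theorem result : ∃ (E : List (Finset (Fin 5))) (l : List (Fin 5)),
    (∀ v, ∃ e ∈ E, v ∈ e) ∧ IsOptimal E l ∧ ∀ S ⊆ l.toFinset, ¬ IsMinLazy E S := by
  refine ⟨E0, [3, 2, 0], by decide +kernel, opt, ?_⟩
  rintro S hS ⟨hl, hmin⟩
  have hcard : S.card ≤ 1 := by
    have := hmin _ lazy_one
    simpa using this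
  have key : ∀ S : Finset (Fin 5), S ⊆ ([3, 2, 0] : List (Fin 5)).toFinset → S.card ≤ 1 →
      S ⊆ {0, 2} ∨ S ⊆ {3} := by decide +kernel
  rcases key S hS hcard with h | h
  · exact not_lazy h closed_02 (by decide +kernel) hl
  · exact not_lazy h closed_3 (by decide +kernel) hl

end Pool.Agent.Results.MP_50e72c_co.LazyNotInside
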